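import Pool.Agent.Y142.ZI.Resc
import Pool.Agent.Y815.ZO.App

set_option autoImplicit false

/-! Project Y142-ZI (helper142), task CHAR (helper949): the characteristic polynomial of an isometry near `1`. -/

open Matrix Polynomial Filter Topology
open Pool.Agent.Y142.ZO Pool.Agent.Y142.ZI

namespace Pool.Agent.Y949.ZI

section cont
variable {K : Type*} [Field K] [TopologicalSpace K] [IsTopologicalRing K] {N : ℕ}

theorem continuous_coeff_charpoly (j : ℕ) :
    Continuous fun M : Matrix (Fin N) (Fin N) K => M.charpoly.coeff j := by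
  have h : (fun M : Matrix (Fin N) (Fin N) K => M.charpoly.coeff j) = fun M =>
      MvPolynomial.eval (fun p : Fin N × Fin N => M p.1 p.2)
        ((Matrix.charpoly.univ K (Fin N)).coeff j) := by
    funext M
    have h1 : (Matrix.charpoly.univ K (Fin N)).map
        (MvPolynomial.eval (fun p : Fin N × Fin N => M p.1 p.2)) = M.charpoly :=
      Matrix.charpoly.univ_map_eval₂Hom (Fin N) (RingHom.id K) (fun p => M p.1 p.2)
    rw [← h1, Polynomial.coeff_map]
  rw [h]
  exact (MvPolynomial.continuous_eval _).comp (by fun_prop)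

end cont

section alg
variable {K : Type} [Field K] {N : ℕ}

theorem charpoly_comp (A : Matrix (Fin N) (Fin N) K) (c : K) [Infinite K] :
    (1 + c • A).charpoly.comp (1 + C c * X) = C (c ^ N) * A.charpoly := by
  apply Polynomial.funext
  intro t
  rw [eval_comp, eval_charpoly, eval_mul, eval_C, eval_charpoly]
  have h2 : (Matrix.scalar (Fin N)) (eval t (1 + C c * X)) - (1 + c • A) =
      c • ((Matrix.scalar (Fin N)) t - A) := by
    ext i j
    by_cases hij : i = j
    · subst hij; simp; ring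
    · simp [hij]
  rw [h2, det_smul, Fintype.card_fin]

/-- the eigenvalues of an isometry are stable under inversion -/
theorem inv_root {L : Type} [Field L] (f : K →+* L) {B g : Matrix (Fin N) (Fin N) K} (hB : B.det ≠ 0)
    (hg : Isom B g) (x : L) (hx0 : x ≠ 0) (hx : g.charpoly.eval₂ f x = 0) :
    g.charpoly.eval₂ f x⁻¹ = 0 := by
  have e : ∀ y : L, g.charpoly.eval₂ f y = (Matrix.scalar (Fin N) y - g.map f).det := by
    intro y
    rw [← eval_charpoly, Matrix.charpoly_map, eval_map]
  rw [e] at hx ⊢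
  have h1 : (g.map f)ᵀ * B.map f * g.map f = B.map f := by
    have h2 := congrArg (fun M : Matrix (Fin N) (Fin N) K => M.map f) hg
    simpa [Matrix.map_mul, Matrix.transpose_map] using h2
  have h3 : B.map f * (Matrix.scalar (Fin N) x⁻¹ - g.map f) =
      (x⁻¹ • ((g.map f)ᵀ - Matrix.scalar (Fin N) x)) * (B.map f * g.map f) := by
    have s1 : Matrix.scalar (Fin N) x⁻¹ = x⁻¹ • (1 : Matrix (Fin N) (Fin N) L) := by
      ext i j
      by_cases hij : i = j
      · subst hij; simp
      · simp [hij]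
    have s2 : Matrix.scalar (Fin N) x = x • (1 : Matrix (Fin N) (Fin N) L) := by
      ext i j
      by_cases hij : i = j
      · subst hij; simp
      · simp [hij]
    rw [s1, s2, smul_sub, smul_smul, inv_mul_cancel₀ hx0, one_smul, sub_mul, smul_mul_assoc, ← mul_assoc, h1,
      one_mul, mul_sub, mul_smul_comm, mul_one]
  have h4 := congrArg Matrix.det h3
  have h5 : ((g.map f)ᵀ - Matrix.scalar (Fin N) x).det = 0 := by
    have h6 : ((g.map f)ᵀ - Matrix.scalar (Fin N) x) = -(Matrix.scalar (Fin N) x - g.map f)ᵀ := by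
      rw [transpose_sub, neg_sub]
      congr 1
      ext i j
      by_cases hij : i = j
      · subst hij; simp
      · simp [hij, Ne.symm hij]
    rw [h6, det_neg, det_transpose, hx, mul_zero]
  rw [det_mul, det_mul, det_smul, h5, mul_zero, zero_mul] at h4
  have h7 : (B.map f).det ≠ 0 := by
    have h8 : (B.map f).det = f B.det := (RingHom.map_det f B).symm
    rw [h8]
    exact (_root_.map_ne_zero f).2 hB
  exact (mul_eq_zero.1 h4).resolve_left h7

end alg

theorem t : S_CHAR := by
  intro ℓ _ hℓ N hN B T R₀ hBs hB hT ε hε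
  have hℓ0 : (ℓ : ℚ_[ℓ]) ≠ 0 := by
    exact_mod_cast (Fact.out : ℓ.Prime).ne_zero
  -- the neighbourhood
  have hnb : ∀ᶠ z : ℚ_[ℓ] × (Fin N → Fin N → ℚ_[ℓ]) in 𝓝 (0, T),
      (1 + z.1 • (Matrix.of z.2)).det ≠ -1 ∧
      ∀ j ∈ Finset.range (N + 1), ‖(Matrix.of z.2).charpoly.coeff j - T.charpoly.coeff j‖ < ε := by
    refine Filter.Eventually.and ?_ ?_
    · have hc : Continuous fun z : ℚ_[ℓ] × (Fin N → Fin N → ℚ_[ℓ]) => (1 + z.1 • (Matrix.of z.2)).det := by
        refine Continuous.matrix_det ?_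
        exact continuous_const.add (continuous_fst.smul continuous_snd)
      have h1 := hc.tendsto (0, T)
      have h2 : (1 + (0 : ℚ_[ℓ]) • (Matrix.of T)).det = 1 := by rw [zero_smul, add_zero, det_one]
      simp only [h2] at h1
      refine h1.eventually_ne ?_
      intro h5
      have h6 : (2 : ℚ_[ℓ]) = 0 := by linear_combination h5
      exact two_ne_zero h6
    · rw [Finset.eventually_all]
      intro j _
      have hc : Continuous fun z : ℚ_[ℓ] × (Fin N → Fin N → ℚ_[ℓ]) =>
          ‖(Matrix.of z.2).charpoly.coeff j - T.charpoly.coeff j‖ :=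
        (((continuous_coeff_charpoly j).comp continuous_snd).sub continuous_const).norm
      have h1 := hc.tendsto (0, T)
      have h2 : ‖(Matrix.of T).charpoly.coeff j - T.charpoly.coeff j‖ = 0 := by
        have : (Matrix.of T) = T := rfl
        rw [this, sub_self, norm_zero]
      simp only [h2] at h1
      exact h1.eventually_lt_const hε
  obtain ⟨δ, hδ, hball⟩ := Metric.eventually_nhds_iff.1 hnb
  obtain ⟨k₀, hk₀⟩ : ∃ k₀ : ℕ, ∀ k, k₀ ≤ k → ‖(ℓ : ℚ_[ℓ]) ^ k‖ < δ := by
    have hlim0 : Tendsto (fun n : ℕ => (ℓ : ℚ_[ℓ]) ^ n) atTop (𝓝 0) :=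
      tendsto_pow_atTop_nhds_zero_of_norm_lt_one Padic.norm_p_lt_one
    have h1 := (tendsto_zero_iff_norm_tendsto_zero.1 hlim0).eventually_lt_const hδ
    exact eventually_atTop.1 h1
  refine ⟨δ, k₀, hδ, fun k g hk hg hgT => ?_⟩
  set c : ℚ_[ℓ] := (ℓ : ℚ_[ℓ]) ^ k with hc
  have hc0 : c ≠ 0 := pow_ne_zero _ hℓ0
  set A : Matrix (Fin N) (Fin N) ℚ_[ℓ] := c⁻¹ • (g - 1) with hA
  have hgA : g = 1 + c • A := by
    rw [hA, smul_smul, mul_inv_cancel₀ hc0, one_smul]
    abel
  obtain ⟨hdet, hcoef⟩ := hball (y := (c, A)) (by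
    rw [Prod.dist_eq, max_lt_iff]
    constructor
    · rw [dist_zero_right]
      exact hk₀ k hk
    · rw [dist_pi_lt_iff hδ]
      intro a
      rw [dist_pi_lt_iff hδ]
      intro b
      rw [dist_eq_norm]
      exact hgT a b)
  simp only at hdet hcoef
  have hof : (Matrix.of A) = A := rfl
  rw [hof, ← hgA] at hdet
  rw [hof] at hcoef
  have hdet1 : g.det = 1 := (Pool.Agent.Y815.ZO.det_sq_of_isom hB hg).resolve_right hdet
  have h0 : (1 - g).det = 0 := Pool.Agent.Y815.ZO.det_one_sub_of_isom hN hB hg hdet1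
  obtain ⟨Q, hQ, -, -⟩ := Pool.Agent.Y815.ZO.charpoly_factor h0
  have hX1 : (X - 1 : ℚ_[ℓ][X]).Monic := by
    have := monic_X_sub_C (1 : ℚ_[ℓ])
    rwa [C_1] at this
  have hQm : Q.Monic := by
    have h1 := g.charpoly_monic
    rw [hQ] at h1
    exact Monic.of_mul_monic_left hX1 h1
  have hdegX : (X - 1 : ℚ_[ℓ][X]).natDegree = 1 := by
    have := natDegree_X_sub_C (1 : ℚ_[ℓ])
    rwa [C_1] at this
  have hgd : g.charpoly.natDegree = N := by rw [charpoly_natDegree_eq_dim, Fintype.card_fin]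
  have hQd : Q.natDegree = N - 1 := by
    have h1 := hgd
    rw [hQ, hX1.natDegree_mul hQm, hdegX] at h1
    omega
  have hresc : X * resc ℓ k Q = A.charpoly := by
    have h1 : resc ℓ k g.charpoly = A.charpoly := by
      unfold resc
      rw [hgd, hgA, ← hc, charpoly_comp A c, ← mul_assoc, ← C_mul, ← mul_pow, inv_mul_cancel₀ hc0, one_pow, C_1,
        one_mul]
    rw [← h1, hQ, resc_mul k hX1 hQm, resc_X_sub_one]
  refine ⟨Q, hQ, hQm, resc_monic k hQm, by rw [resc_natDegree, hQd], ?_, ?_⟩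
  · intro j
    have h1 : (resc ℓ k Q - R₀).coeff j = A.charpoly.coeff (j + 1) - T.charpoly.coeff (j + 1) := by
      rw [← hresc, hT, coeff_X_mul, coeff_X_mul, coeff_sub]
    rw [h1]
    by_cases hj : j + 1 ∈ Finset.range (N + 1)
    · exact hcoef _ hj
    · have hj2 : N < j + 1 := by
        rw [Finset.mem_range] at hj
        omega
      rw [coeff_eq_zero_of_natDegree_lt, coeff_eq_zero_of_natDegree_lt, sub_zero, norm_zero]
      · exact hε
      · rw [charpoly_natDegree_eq_dim, Fintype.card_fin]; exact hj2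
      · rw [charpoly_natDegree_eq_dim, Fintype.card_fin]; exact hj2
  · intro x hx
    have hev : ∀ y : AlgebraicClosure ℚ_[ℓ], aeval y g.charpoly = (y - 1) * aeval y Q := by
      intro y
      rw [hQ, map_mul, map_sub, aeval_X, map_one]
    have hgx : aeval x g.charpoly = 0 := by rw [hev, hx, mul_zero]
    have hx0 : x ≠ 0 := by
      rintro rfl
      rw [← coeff_zero_eq_aeval_zero'] at hgx
      have h2 : g.charpoly.coeff 0 = 0 := (_root_.map_eq_zero _).1 hgx
      have h3 := Matrix.det_eq_sign_charpoly_coeff g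
      rw [h2, mul_zero, hdet1] at h3
      exact one_ne_zero h3
    refine ⟨hx0, ?_⟩
    have h1 : aeval x⁻¹ g.charpoly = 0 := inv_root (algebraMap ℚ_[ℓ] (AlgebraicClosure ℚ_[ℓ])) hB hg x hx0 hgx
    rw [hev] at h1
    rcases mul_eq_zero.1 h1 with h2 | h2
    · have h3 : x⁻¹ = 1 := sub_eq_zero.1 h2
      have h4 : x = 1 := inv_eq_one.1 h3
      rw [h3, ← h4]
      exact hx
    · exact h2

end Pool.Agent.Y949.ZI
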